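import Pool.Agent.Q44.LD.StmC
import Pool.Agent.Q44.JQ.X.MomA

/-!
# Project LD (helper44), job LD-UNI: moment convergence and uniform integrability
-/

set_option autoImplicit false

open scoped Classical Topology

namespace Pool.Agent.Q285.LD

open Finset Filter
open Q44.JQ

/-- products of series with nonnegative terms -/
theorem hasSum_prod' {J : Type} [Fintype J] {f : J → ℕ → ℝ} {S : J → ℝ} (h0 : ∀ j e, 0 ≤ f j e)
    (h1 : ∀ j, HasSum (f j) (S j)) : HasSum (fun e : J → ℕ => ∏ j, f j (e j)) (∏ j, S j) := by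
  have hnn : ∀ e : J → ℕ, 0 ≤ ∏ j, f j (e j) := fun e => prod_nonneg fun j _ => h0 j _
  have hbox : ∀ S : Finset (J → ℕ), ∃ M, S ⊆ Fintype.piFinset (fun _ : J => range M) := by
    intro S
    refine ⟨∑ e ∈ S, ∑ j, (e j + 1), fun e he => ?_⟩
    rw [Fintype.mem_piFinset]
    intro j
    rw [mem_range]
    have h1 := single_le_sum (f := fun e : J → ℕ => ∑ j, (e j + 1)) (fun _ _ => Nat.zero_le _) he
    have h2 := single_le_sum (f := fun j => e j + 1) (fun _ _ => Nat.zero_le _) (mem_univ j)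
    have h3 : e j + 1 ≤ ∑ j, (e j + 1) := h2
    exact lt_of_lt_of_le (Nat.lt_succ_self _) (h3.trans h1)
  have hprod : ∀ M : ℕ, ∑ e ∈ Fintype.piFinset (fun _ : J => range M), ∏ j, f j (e j) =
      ∏ j, ∑ i ∈ range M, f j i := fun M =>
    (Finset.prod_univ_sum (fun _ : J => range M) f).symm
  have hs : Summable (fun e : J → ℕ => ∏ j, f j (e j)) := by
    refine summable_of_sum_le (c := ∏ j, S j) hnn fun T => ?_
    obtain ⟨M, hM⟩ := hbox T
    refine (sum_le_sum_of_subset_of_nonneg hM fun _ _ _ => hnn _).trans ?_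
    rw [hprod]
    exact prod_le_prod (fun j _ => sum_nonneg fun _ _ => h0 j _) fun j _ =>
      sum_le_hasSum _ (fun _ _ => h0 j _) (h1 j)
  have h2 : Tendsto (fun M : ℕ => ∑ e ∈ Fintype.piFinset (fun _ : J => range M),
      ∏ j, f j (e j)) atTop (𝓝 (∑' e : J → ℕ, ∏ j, f j (e j))) := by
    refine hs.hasSum.comp ?_
    apply tendsto_atTop_finset_of_monotone
    · intro M M' h
      exact Fintype.piFinset_subset _ _ fun _ => range_mono h
    · intro e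
      obtain ⟨M, hM⟩ := hbox {e}
      exact ⟨M, hM (mem_singleton_self e)⟩
  have h3 : Tendsto (fun M : ℕ => ∑ e ∈ Fintype.piFinset (fun _ : J => range M),
      ∏ j, f j (e j)) atTop (𝓝 (∏ j, S j)) := by
    simp only [hprod]
    exact tendsto_finsetProd _ fun j _ => (h1 j).tendsto_sum_nat
  rw [← tendsto_nhds_unique h2 h3]
  exact hs.hasSum

/-- powers are bounded by falling products -/
theorem pow_le_fall (μ r : ℕ) : ((2 : ℝ) ^ r) ^ μ ≤
    2 ^ μ * ∏ i ∈ range μ, ((2 : ℝ) ^ r - 2 ^ i) + 2 ^ (μ * μ) := by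
  rcases Nat.lt_or_ge r μ with h | h
  · rw [prod_eq_zero (mem_range.2 h) (sub_self _), mul_zero, zero_add, ← pow_mul]
    exact pow_le_pow_right₀ (by norm_num) (Nat.mul_le_mul_right _ h.le)
  · have h1 : ∏ _i ∈ range μ, ((2 : ℝ) ^ r / 2) ≤ ∏ i ∈ range μ, ((2 : ℝ) ^ r - 2 ^ i) := by
      refine prod_le_prod (fun i _ => by positivity) fun i hi => ?_
      rw [mem_range] at hi
      have h2 : (2 : ℝ) ^ (i + 1) ≤ 2 ^ r := pow_le_pow_right₀ (by norm_num) (by omega)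
      rw [pow_succ] at h2
      linarith
    rw [prod_const, card_range, div_pow] at h1
    have h3 : (2 : ℝ) ^ μ * (((2 : ℝ) ^ r) ^ μ / 2 ^ μ) ≤
        2 ^ μ * ∏ i ∈ range μ, ((2 : ℝ) ^ r - 2 ^ i) :=
      mul_le_mul_of_nonneg_left h1 (by positivity)
    rw [mul_div_cancel₀ _ (by positivity)] at h3
    have h4 : (0 : ℝ) ≤ 2 ^ (μ * μ) := by positivity
    linarith

theorem prod_le_sum' {κ : Type} [Fintype κ] (x : κ → ℝ) (hx : ∀ k, 1 ≤ x k) (a : ℕ) (j : κ) :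
    x j * ∏ k, x k ^ a ≤ ∑ k, x k ^ (a * Fintype.card κ + 1) := by
  obtain ⟨k₀, -, h0⟩ := exists_max_image (univ : Finset κ) x ⟨j, mem_univ j⟩
  have hp : ∀ k, 0 ≤ x k := fun k => zero_le_one.trans (hx k)
  have h1 : ∏ k, x k ^ a ≤ x k₀ ^ (a * Fintype.card κ) := by
    have h2 := prod_le_prod (s := (univ : Finset κ)) (f := fun k => x k ^ a)
      (g := fun _ => x k₀ ^ a) (fun k _ => pow_nonneg (hp k) _) fun k _ =>
      pow_le_pow_left₀ (hp k) (h0 k (mem_univ k)) _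
    rwa [prod_const, card_univ, ← pow_mul] at h2
  calc x j * ∏ k, x k ^ a ≤ x k₀ * x k₀ ^ (a * Fintype.card κ) :=
        mul_le_mul (h0 j (mem_univ j)) h1 (prod_nonneg fun k _ => pow_nonneg (hp k) _) (hp k₀)
    _ = x k₀ ^ (a * Fintype.card κ + 1) := by rw [pow_succ, mul_comm]
    _ ≤ _ := single_le_sum (f := fun k => x k ^ (a * Fintype.card κ + 1))
        (fun k _ => pow_nonneg (hp k) _) (mem_univ k₀)

/-- functions of exponential growth -/
theorem growth {κ : Type} [Fintype κ] {C : ℝ} {a : ℕ} (hC : 1 ≤ C) (ha : C ≤ 2 ^ a) (r : κ → ℕ) :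
    C ^ (1 + ∑ k, r k) ≤ 2 ^ a * ∏ k, ((2 : ℝ) ^ r k) ^ a := by
  have h1 : C ^ (1 + ∑ k, r k) ≤ ((2 : ℝ) ^ a) ^ (1 + ∑ k, r k) :=
    pow_le_pow_left₀ (by linarith) ha _
  refine h1.trans (le_of_eq ?_)
  rw [pow_add, pow_one, ← prod_pow_eq_pow_sum]
  congr 1
  refine prod_congr rfl fun k _ => ?_
  rw [← pow_mul, ← pow_mul, mul_comm]

/-- the bound outside of a box -/
theorem growth_out {κ : Type} [Fintype κ] {C : ℝ} {a K : ℕ} (hC : 1 ≤ C) (ha : C ≤ 2 ^ a)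
    (r : κ → ℕ) (hr : ¬ ∀ k, r k < K) :
    C ^ (1 + ∑ k, r k) ≤ 2 ^ a * (1 / 2) ^ K * ∑ k, ((2 : ℝ) ^ r k) ^ (a * Fintype.card κ + 1) := by
  push Not at hr
  obtain ⟨j, hj⟩ := hr
  have h1 := prod_le_sum' (fun k => (2 : ℝ) ^ r k) (fun k => one_le_pow₀ (by norm_num)) a j
  have h2 : (2 : ℝ) ^ K ≤ 2 ^ r j := pow_le_pow_right₀ (by norm_num) hj
  have h3 : 0 ≤ ∏ k, ((2 : ℝ) ^ r k) ^ a := prod_nonneg fun k _ => by positivity
  have h4 : (2 : ℝ) ^ K * ∏ k, ((2 : ℝ) ^ r k) ^ a ≤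
      ∑ k, ((2 : ℝ) ^ r k) ^ (a * Fintype.card κ + 1) :=
    (mul_le_mul_of_nonneg_right h2 h3).trans h1
  refine (growth hC ha r).trans ?_
  have h5 : ∏ k, ((2 : ℝ) ^ r k) ^ a = (1 / 2) ^ K * (2 ^ K * ∏ k, ((2 : ℝ) ^ r k) ^ a) := by
    rw [← mul_assoc, ← mul_pow]
    norm_num
  rw [h5, mul_assoc (2 ^ a : ℝ)]
  refine mul_le_mul_of_nonneg_left ?_ (by positivity)
  exact mul_le_mul_of_nonneg_left h4 (by positivity)

/-- moments of the law on vectors -/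
theorem law_mom {κ : Type} [Fintype κ] (c : κ → ZMod 2) (μ : ℕ) (k₀ : κ) :
    HasSum (fun r : κ → ℕ => ((2 : ℝ) ^ r k₀) ^ μ * ∏ k, lawc (c k) (r k))
      (∏ i ∈ range μ, (1 + (2 : ℝ) ^ (i + 1))) := by
  have h1 := hasSum_prod' (f := fun k e => lawc (c k) e * (if k = k₀ then ((2 : ℝ) ^ e) ^ μ else 1))
    (S := fun k => if k = k₀ then ∏ i ∈ range μ, (1 + (2 : ℝ) ^ (i + 1)) else 1)
    (fun k e => mul_nonneg (M.lawc_nonneg _ _) (by split_ifs <;> positivity)) (fun k => by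
      by_cases hk : k = k₀
      · simp only [if_pos hk]
        exact X.mom_law (c k) μ
      · simp only [if_neg hk, mul_one]
        exact M.hasSum_lawc (c k))
  have e1 : (∏ k, if k = k₀ then ∏ i ∈ range μ, (1 + (2 : ℝ) ^ (i + 1)) else 1) =
      ∏ i ∈ range μ, (1 + (2 : ℝ) ^ (i + 1)) := by
    rw [prod_ite_eq' univ k₀, if_pos (mem_univ _)]
  have e2 : (fun r : κ → ℕ => ((2 : ℝ) ^ r k₀) ^ μ * ∏ k, lawc (c k) (r k)) =
      fun r : κ → ℕ => ∏ k, (lawc (c k) (r k) * (if k = k₀ then ((2 : ℝ) ^ (r k)) ^ μ else 1)) := by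
    funext r
    rw [prod_mul_distrib, prod_ite_eq' univ k₀, if_pos (mem_univ _), mul_comm]
  rw [e1] at h1
  rw [e2]
  exact h1

theorem law_sum {κ : Type} [Fintype κ] (c : κ → ZMod 2) (a : ℕ) :
    Summable (fun r : κ → ℕ => (∏ k, ((2 : ℝ) ^ r k) ^ a) * ∏ k, lawc (c k) (r k)) := by
  have h1 := hasSum_prod' (f := fun k e => lawc (c k) e * ((2 : ℝ) ^ e) ^ a)
    (S := fun _ => ∏ i ∈ range a, (1 + (2 : ℝ) ^ (i + 1)))
    (fun k e => mul_nonneg (M.lawc_nonneg _ _) (by positivity)) (fun k => X.mom_law (c k) a)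
  have e2 : (fun r : κ → ℕ => (∏ k, ((2 : ℝ) ^ r k) ^ a) * ∏ k, lawc (c k) (r k)) =
      fun r : κ → ℕ => ∏ k, (lawc (c k) (r k) * ((2 : ℝ) ^ (r k)) ^ a) := by
    funext r
    rw [prod_mul_distrib, mul_comm]
  rw [e2]
  exact h1.summable

/-- the sample side of the box -/
theorem fiber {κ Ω : Type} [Fintype κ] [Fintype Ω] (e : Ω → κ → ℕ) (f : (κ → ℕ) → ℝ)
    (B : Finset (κ → ℕ)) :
    ∑ w, f (e w) = ∑ r ∈ B, ((univ.filter fun w => e w = r).card : ℝ) * f r +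
      ∑ w, if e w ∈ B then 0 else f (e w) := by
  have h1 : ∀ r ∈ B, ((univ.filter fun w => e w = r).card : ℝ) * f r =
      ∑ w, if e w = r then f r else 0 := by
    intro r _
    rw [← sum_filter, sum_const, nsmul_eq_mul]
  rw [sum_congr rfl h1, sum_comm, ← sum_add_distrib]
  refine sum_congr rfl fun w _ => ?_
  rw [sum_ite_eq]
  split_ifs <;> simp

theorem t_UNI (hM : S_MOM) : Q44.LD.S_UNI := by
  intro κ _ c C η hC hη
  obtain ⟨a, ha⟩ : ∃ a : ℕ, C ≤ 2 ^ a := by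
    obtain ⟨a, ha⟩ := pow_unbounded_of_one_lt C (show (1 : ℝ) < 2 by norm_num)
    exact ⟨a, ha.le⟩
  obtain ⟨μ, hμ⟩ : ∃ μ : ℕ, μ = a * Fintype.card κ + 1 := ⟨_, rfl⟩
  obtain ⟨A1, hA1⟩ : ∃ A1 : ℝ, A1 = 2 ^ μ * ((2 : ℝ) ^ (μ * (μ + 1) / 2) + 1) + 2 ^ (μ * μ) :=
    ⟨_, rfl⟩
  obtain ⟨A2, hA2⟩ : ∃ A2 : ℝ, A2 = ∏ i ∈ range μ, (1 + (2 : ℝ) ^ (i + 1)) := ⟨_, rfl⟩
  have hA1p : 0 ≤ A1 := by rw [hA1]; positivity
  have hA2p : 0 ≤ A2 := by rw [hA2]; positivity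
  obtain ⟨n, hn⟩ : ∃ n : ℝ, n = (Fintype.card κ : ℝ) := ⟨_, rfl⟩
  have hn0 : 0 ≤ n := by rw [hn]; positivity
  obtain ⟨K, hK⟩ : ∃ K : ℕ, 2 ^ a * (1 / 2) ^ K * (n * (A1 + A2)) ≤ η / 2 := by
    have h1 : Tendsto (fun K : ℕ => 2 ^ a * (1 / 2 : ℝ) ^ K * (n * (A1 + A2))) atTop
        (𝓝 (2 ^ a * 0 * (n * (A1 + A2)))) :=
      ((tendsto_pow_atTop_nhds_zero_of_lt_one (by norm_num) (by norm_num)).const_mul _).mul_const _
    rw [mul_zero, zero_mul] at h1
    exact (h1.eventually_le_const (show (0 : ℝ) < η / 2 by linarith)).exists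
  obtain ⟨B, hB⟩ : ∃ B : Finset (κ → ℕ), B = Fintype.piFinset fun _ => range K := ⟨_, rfl⟩
  have hmemB : ∀ r, r ∈ B ↔ ∀ k, r k < K := fun r => by
    rw [hB, Fintype.mem_piFinset]
    simp only [mem_range]
  -- the tolerance in the box
  obtain ⟨τ, hτ⟩ : ∃ τ : (κ → ℕ) → ℝ, τ = fun r => η / (2 * ((B.card : ℝ) + 1) *
    C ^ (1 + ∑ k, r k)) := ⟨_, rfl⟩
  have hCpos : ∀ r : κ → ℕ, 0 < C ^ (1 + ∑ k, r k) := fun r => by positivity
  have hτ0 : ∀ r, 0 < τ r := fun r => by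
    rw [hτ]
    have := hCpos r
    positivity
  choose Mr δr hδr hmom using fun r : κ → ℕ => hM κ c r (τ r) (hτ0 r)
  obtain ⟨M, hM1, hM2⟩ : ∃ M : ℕ, μ ≤ M ∧ ∀ r ∈ B, Mr r ≤ M :=
    ⟨max μ (B.sup Mr), le_max_left _ _, fun r hr => (le_sup (f := Mr) hr).trans (le_max_right _ _)⟩
  obtain ⟨δ, hδ0, hδ1, hδ2⟩ : ∃ δ : ℝ, 0 < δ ∧ δ ≤ 1 ∧ ∀ r ∈ B, δ ≤ δr r := by
    have key : ∀ B : Finset (κ → ℕ), ∃ δ : ℝ, 0 < δ ∧ δ ≤ 1 ∧ ∀ r ∈ B, δ ≤ δr r := by
      intro B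
      induction B using Finset.induction_on with
      | empty => exact ⟨1, one_pos, le_rfl, by simp⟩
      | insert x s _ ih =>
        obtain ⟨d, h1, h2, h3⟩ := ih
        refine ⟨min d (δr x), lt_min h1 (hδr x), (min_le_left _ _).trans h2, fun r hr => ?_⟩
        rcases mem_insert.1 hr with rfl | hr
        · exact min_le_right _ _
        · exact (min_le_left _ _).trans (h3 r hr)
    exact key B
  refine ⟨M, δ, hδ0, ?_⟩
  intro Ω _ _ e hpar hmo f hf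
  obtain ⟨N, hN⟩ : ∃ N : ℝ, N = (Fintype.card Ω : ℝ) := ⟨_, rfl⟩
  have hN0 : 0 < N := by rw [hN]; exact_mod_cast Fintype.card_pos
  obtain ⟨P, hP⟩ : ∃ P : (κ → ℕ) → ℝ, P = fun r => ∏ k, lawc (c k) (r k) := ⟨_, rfl⟩
  have hP0 : ∀ r, 0 ≤ P r := fun r => by
    rw [hP]
    exact prod_nonneg fun k _ => Q44.JQ.M.lawc_nonneg _ _
  -- the box
  have hbox : |∑ r ∈ B, (((univ.filter fun w => e w = r).card : ℝ) / N - P r) * f r| ≤ η / 2 := by
    refine (abs_sum_le_sum_abs _ _).trans ?_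
    have h1 : ∀ r ∈ B, |(((univ.filter fun w => e w = r).card : ℝ) / N - P r) * f r| ≤
        η / (2 * ((B.card : ℝ) + 1)) := by
      intro r hr
      have h2 := hmom r Ω e hpar (fun m hm => (hmo m fun k => (hm k).trans (hM2 r hr)).trans
        (hδ2 r hr))
      rw [abs_mul, hN, hP]
      have h3 := mul_le_mul h2 (hf r) (abs_nonneg _) (hτ0 r).le
      refine h3.trans (le_of_eq ?_)
      have h4 := (hCpos r).ne'
      rw [hτ]
      field_simp
    refine (sum_le_card_nsmul _ _ _ h1).trans ?_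
    rw [nsmul_eq_mul, mul_div_assoc', div_le_div_iff₀ (by positivity) (by norm_num)]
    nlinarith
  -- the tail of the sample
  have hmean : ∀ k, (∑ w, ((2 : ℝ) ^ e w k) ^ μ) / N ≤ A1 := by
    intro k
    have h1 := hmo (Pi.single k μ) (fun k' => by
      by_cases hk : k' = k
      · rw [hk, Pi.single_eq_same]
        exact hM1
      · rw [Pi.single_eq_of_ne hk]
        exact Nat.zero_le _)
    have h2 : ∀ w, ∏ k', ∏ i ∈ range ((Pi.single k μ : κ → ℕ) k'), ((2 : ℝ) ^ e w k' - 2 ^ i) =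
        ∏ i ∈ range μ, ((2 : ℝ) ^ e w k - 2 ^ i) := by
      intro w
      rw [prod_eq_single k]
      · rw [Pi.single_eq_same]
      · intro k' _ hk
        rw [Pi.single_eq_of_ne hk, range_zero, prod_empty]
      · intro h
        exact absurd (mem_univ k) h
    have h3 : ∏ k', (2 : ℝ) ^ ((Pi.single k μ : κ → ℕ) k' * ((Pi.single k μ : κ → ℕ) k' + 1) / 2) =
        (2 : ℝ) ^ (μ * (μ + 1) / 2) := by
      rw [prod_eq_single k]
      · rw [Pi.single_eq_same]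
      · intro k' _ hk
        rw [Pi.single_eq_of_ne hk]
        norm_num
      · intro h
        exact absurd (mem_univ k) h
    rw [h3] at h1
    simp only [h2] at h1
    have h4 : (∑ w, ∏ i ∈ range μ, ((2 : ℝ) ^ e w k - 2 ^ i)) / N ≤
        (2 : ℝ) ^ (μ * (μ + 1) / 2) + 1 := by
      rw [← hN] at h1
      have := (abs_le.1 h1).2
      linarith
    have h5 : ∑ w, ((2 : ℝ) ^ e w k) ^ μ ≤
        2 ^ μ * (∑ w, ∏ i ∈ range μ, ((2 : ℝ) ^ e w k - 2 ^ i)) + N * 2 ^ (μ * μ) := by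
      refine (sum_le_sum fun w _ => pow_le_fall μ (e w k)).trans (le_of_eq ?_)
      rw [sum_add_distrib, mul_sum, sum_const, card_univ, nsmul_eq_mul, hN]
    rw [div_le_iff₀ hN0, hA1]
    rw [div_le_iff₀ hN0] at h4
    have h6 : (2 : ℝ) ^ μ * (∑ w, ∏ i ∈ range μ, ((2 : ℝ) ^ e w k - 2 ^ i)) ≤
        2 ^ μ * (((2 : ℝ) ^ (μ * (μ + 1) / 2) + 1) * N) :=
      mul_le_mul_of_nonneg_left h4 (by positivity)
    linarith
  have htail1 : |(∑ w, if e w ∈ B then 0 else f (e w)) / N| ≤ 2 ^ a * (1 / 2) ^ K * (n * A1) := by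
    rw [abs_div, abs_of_pos hN0]
    have h1 : |∑ w, if e w ∈ B then 0 else f (e w)| ≤
        ∑ w, 2 ^ a * (1 / 2) ^ K * ∑ k, ((2 : ℝ) ^ e w k) ^ μ := by
      refine (abs_sum_le_sum_abs _ _).trans (sum_le_sum fun w _ => ?_)
      split_ifs with hw
      · rw [abs_zero]
        positivity
      · rw [hmemB] at hw
        rw [hμ]
        exact (hf _).trans (growth_out hC ha _ hw)
    rw [← mul_sum, sum_comm] at h1
    rw [div_le_iff₀ hN0]
    refine h1.trans ?_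
    have h2 : ∑ k, ∑ w, ((2 : ℝ) ^ e w k) ^ μ ≤ n * A1 * N := by
      have h3 := sum_le_card_nsmul (univ : Finset κ) (fun k => ∑ w, ((2 : ℝ) ^ e w k) ^ μ) (A1 * N)
        (fun k _ => by
          have := hmean k
          rwa [div_le_iff₀ hN0] at this)
      rw [card_univ, nsmul_eq_mul, ← hn, ← mul_assoc] at h3
      exact h3
    calc 2 ^ a * (1 / 2) ^ K * ∑ k, ∑ w, ((2 : ℝ) ^ e w k) ^ μ ≤
          2 ^ a * (1 / 2) ^ K * (n * A1 * N) := mul_le_mul_of_nonneg_left h2 (by positivity)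
      _ = 2 ^ a * (1 / 2) ^ K * (n * A1) * N := by ring
  -- the tail of the law
  have hsum : Summable fun r : κ → ℕ => f r * P r := by
    refine Summable.of_norm_bounded (g := fun r => 2 ^ a *
      ((∏ k, ((2 : ℝ) ^ r k) ^ a) * ∏ k, lawc (c k) (r k))) ((law_sum c a).mul_left _) fun r => ?_
    rw [Real.norm_eq_abs, abs_mul, abs_of_nonneg (hP0 r), ← mul_assoc, hP]
    refine mul_le_mul_of_nonneg_right ((hf r).trans (growth hC ha r)) ?_
    exact prod_nonneg fun k _ => Q44.JQ.M.lawc_nonneg _ _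
  have hfin : HasSum (fun r : κ → ℕ => if r ∈ B then f r * P r else 0) (∑ r ∈ B, f r * P r) := by
    have h1 : HasSum (fun r : κ → ℕ => if r ∈ B then f r * P r else 0)
        (∑ r ∈ B, (if r ∈ B then f r * P r else 0)) :=
      hasSum_sum_of_ne_finset_zero (fun r hr => if_neg hr)
    have h2 : ∑ r ∈ B, (if r ∈ B then f r * P r else 0) = ∑ r ∈ B, f r * P r :=
      sum_congr rfl fun r hr => if_pos hr
    rw [h2] at h1
    exact h1
  have hmaj : HasSum (fun r : κ → ℕ => 2 ^ a * (1 / 2 : ℝ) ^ K *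
      ∑ k, (((2 : ℝ) ^ r k) ^ μ * ∏ k, lawc (c k) (r k))) (2 ^ a * (1 / 2) ^ K * (n * A2)) := by
    have h1 := hasSum_sum (s := (univ : Finset κ)) (fun k _ => law_mom c μ k)
    rw [← hA2, sum_const, card_univ, nsmul_eq_mul, ← hn] at h1
    exact h1.mul_left _
  have hle : ∀ r, |f r * P r - (if r ∈ B then f r * P r else 0)| ≤ 2 ^ a * (1 / 2 : ℝ) ^ K *
      ∑ k, (((2 : ℝ) ^ r k) ^ μ * ∏ k, lawc (c k) (r k)) := by
    intro r
    have hPr : 0 ≤ ∏ k, lawc (c k) (r k) := prod_nonneg fun k _ => Q44.JQ.M.lawc_nonneg _ _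
    split_ifs with hr
    · rw [sub_self, abs_zero]
      refine mul_nonneg (by positivity) (sum_nonneg fun k _ => mul_nonneg (by positivity) hPr)
    · rw [hmemB] at hr
      rw [sub_zero, abs_mul, abs_of_nonneg (hP0 r), ← sum_mul, ← mul_assoc, hP, hμ]
      exact mul_le_mul_of_nonneg_right ((hf r).trans (growth_out hC ha r hr)) hPr
  have hdiff := hsum.hasSum.sub hfin
  have htail2 : |∑' r : κ → ℕ, f r * P r - ∑ r ∈ B, f r * P r| ≤
      2 ^ a * (1 / 2) ^ K * (n * A2) := by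
    rw [abs_le]
    exact ⟨hasSum_le (fun r => (abs_le.1 (hle r)).1) hmaj.neg hdiff,
      hasSum_le (fun r => (abs_le.1 (hle r)).2) hdiff hmaj⟩
  -- the end
  have hmain : (∑ w, f (e w)) / N - ∑' r : κ → ℕ, f r * P r =
      ∑ r ∈ B, (((univ.filter fun w => e w = r).card : ℝ) / N - P r) * f r +
      (∑ w, if e w ∈ B then 0 else f (e w)) / N -
      (∑' r : κ → ℕ, f r * P r - ∑ r ∈ B, f r * P r) := by
    rw [fiber e f B, add_div, sum_div]
    have h1 : ∑ r ∈ B, (((univ.filter fun w => e w = r).card : ℝ) / N - P r) * f r =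
        ∑ r ∈ B, ((univ.filter fun w => e w = r).card : ℝ) * f r / N - ∑ r ∈ B, f r * P r := by
      rw [← sum_sub_distrib]
      exact sum_congr rfl fun r _ => by ring
    rw [h1]
    ring
  have hfinal : |(∑ w, f (e w)) / N - ∑' r : κ → ℕ, f r * P r| ≤ η := by
    rw [hmain]
    refine (abs_sub _ _).trans ?_
    have h1 := abs_add_le (∑ r ∈ B, (((univ.filter fun w => e w = r).card : ℝ) / N - P r) * f r)
      ((∑ w, if e w ∈ B then 0 else f (e w)) / N)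
    have h2 : 2 ^ a * (1 / 2) ^ K * (n * A1) + 2 ^ a * (1 / 2) ^ K * (n * A2) ≤ η / 2 := by
      refine le_trans (le_of_eq ?_) hK
      ring
    linarith
  rw [hN, hP] at hfinal
  exact hfinal

end Pool.Agent.Q285.LD
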